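import Mathlib
import Pool.Agent.H239R2.Lonely.Gaps

set_option autoImplicit false
set_option linter.unusedSectionVars false
set_option linter.unusedVariables false

/-!
Colourings of difference graphs of sets which are sparse over the rationals.
-/

namespace Pool.Agent.TH895.Typ

open Set

theorem exists_embedding (d : ℕ) :
    ∃ φ : EuclideanSpace ℝ (Fin d) →ₗ[ℚ] ℝ, Function.Injective φ := by
  have h : Module.rank ℚ (EuclideanSpace ℝ (Fin d)) ≤ Module.rank ℚ ℝ := by
    rw [Real.rank_rat_real]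
    refine (rank_le_card ℚ (EuclideanSpace ℝ (Fin d))).trans ?_
    have e : EuclideanSpace ℝ (Fin d) ≃ (Fin d → ℝ) := (WithLp.equiv 2 (Fin d → ℝ))
    rw [Cardinal.mk_congr e]
    simp only [Cardinal.mk_pi, Cardinal.mk_real, Cardinal.prod_const, Cardinal.lift_id,
      Cardinal.mk_fin]
    exact Cardinal.power_nat_le Cardinal.aleph0_le_continuum
  exact rank_le_iff_exists_linearMap.mp h

theorem color_ne {D : ℕ} (a b : ℝ) (hab : ∀ N : ℤ, (1 : ℝ) / (D + 1 : ℕ) ≤ |a - b - N|)
    (hc : ⌊((D + 1 : ℕ) : ℝ) * Int.fract a⌋₊ = ⌊((D + 1 : ℕ) : ℝ) * Int.fract b⌋₊) : False := by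
  have hD : (0 : ℝ) < ((D + 1 : ℕ) : ℝ) := by positivity
  have ha := Nat.floor_le (mul_nonneg hD.le (Int.fract_nonneg a))
  have ha' := Nat.lt_floor_add_one (((D + 1 : ℕ) : ℝ) * Int.fract a)
  have hb := Nat.floor_le (mul_nonneg hD.le (Int.fract_nonneg b))
  have hb' := Nat.lt_floor_add_one (((D + 1 : ℕ) : ℝ) * Int.fract b)
  rw [hc] at ha ha'
  have h1 := hab (⌊a⌋ - ⌊b⌋)
  have h2 : a - b - ((⌊a⌋ - ⌊b⌋ : ℤ) : ℝ) = Int.fract a - Int.fract b := by
    push_cast
    have := Int.self_sub_floor a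
    have := Int.self_sub_floor b
    linarith
  rw [h2] at h1
  have h3 : |((D + 1 : ℕ) : ℝ) * (Int.fract a - Int.fract b)| < 1 := by
    rw [mul_sub, abs_lt]
    constructor <;> linarith
  rw [abs_mul, abs_of_pos hD] at h3
  have h4 : ((D + 1 : ℕ) : ℝ) * (1 / ((D + 1 : ℕ) : ℝ)) = 1 := by field_simp
  nlinarith

/-- Sparse difference graphs have few colours. -/
theorem colorable_of_sparse {d : ℕ} (hd : 0 < d) (F : Set (EuclideanSpace ℝ (Fin d)))
    (hsym : ∀ x ∈ F, -x ∈ F)
    (hF : ∀ A : Finset (EuclideanSpace ℝ (Fin d)), (∀ x ∈ A, x ∈ F) →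
      (∀ x ∈ A, ∀ y ∈ A, x + y ≠ 0) →
      A.card ≤ d * Module.finrank ℚ (Submodule.span ℚ (A : Set (EuclideanSpace ℝ (Fin d))))) :
    (SimpleGraph.fromRel (fun x y : EuclideanSpace ℝ (Fin d) => x - y ∈ F)).Colorable
      (2 * d + 1) := by
  classical
  obtain ⟨φ, hφ⟩ := exists_embedding d
  apply SimpleGraph.nonempty_hom_of_forall_finite_subgraph_hom
  intro G' hfin
  apply Classical.choice
  let V0 : Finset (EuclideanSpace ℝ (Fin d)) := hfin.toFinset
  let S : Finset (EuclideanSpace ℝ (Fin d)) :=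
    ((V0 ×ˢ V0).image (fun p => p.1 - p.2)).filter (fun s => s ∈ F ∧ 0 < φ s)
  have hdR : (0 : ℝ) < d := by exact_mod_cast hd
  obtain ⟨t, _, ht⟩ := Pool.Agent.H239R2.Lonely.gaps (E := {s // s ∈ S}) (fun s => φ s.1)
    (fun _ => 0) (fun _ => 1 / (d : ℝ)) (fun _ => by positivity) (by
      intro A
      have h1 := hF (A.map (Function.Embedding.subtype _)) (by
        intro x hx
        rw [Finset.mem_map] at hx
        obtain ⟨y, _, rfl⟩ := hx
        exact (Finset.mem_filter.mp y.2).2.1) (by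
        intro x hx y hy hxy
        rw [Finset.mem_map] at hx hy
        obtain ⟨x', _, rfl⟩ := hx
        obtain ⟨y', _, rfl⟩ := hy
        have hx' := (Finset.mem_filter.mp x'.2).2.2
        have hy' := (Finset.mem_filter.mp y'.2).2.2
        have := congrArg φ hxy
        simp only [Function.Embedding.subtype_apply, map_add, map_zero] at this
        linarith)
      rw [Finset.card_map] at h1
      rw [Finset.sum_const, nsmul_eq_mul, mul_one_div, div_le_iff₀ hdR]
      have h2 : (fun s : {s // s ∈ S} => φ s.1) '' (A : Set {s // s ∈ S})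
          = φ '' ((A.map (Function.Embedding.subtype _) : Finset _) :
            Set (EuclideanSpace ℝ (Fin d))) := by
        rw [Finset.coe_map, Set.image_image]
        rfl
      rw [h2, ← Submodule.map_span, ← (Submodule.equivMapOfInjective φ hφ _).finrank_eq]
      have h3 : (A.card : ℝ) ≤ ((d * Module.finrank ℚ (Submodule.span ℚ
          ((A.map (Function.Embedding.subtype _) : Finset _) :
            Set (EuclideanSpace ℝ (Fin d)))) : ℕ) : ℝ) := by exact_mod_cast h1
      rw [Nat.cast_mul, mul_comm] at h3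
      exact h3) (1 / (2 * d) - 1 / (2 * d + 1)) (by
        have : (1 : ℝ) / (2 * d + 1) < 1 / (2 * d) := by
          apply one_div_lt_one_div_of_lt <;> linarith
        linarith) 0
  have hbound : ∀ x ∈ V0, ∀ y ∈ V0, x - y ∈ F → x ≠ y → ∀ N : ℤ,
      (1 : ℝ) / (2 * d + 1 : ℕ) ≤ |t * φ x - t * φ y - N| := by
    have key : ∀ x ∈ V0, ∀ y ∈ V0, x - y ∈ F → 0 < φ (x - y) → ∀ N : ℤ,
        (1 : ℝ) / (2 * d + 1 : ℕ) ≤ |t * φ x - t * φ y - N| := by
      intro x hx y hy hxy hpos N
      have hs : x - y ∈ S := by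
        refine Finset.mem_filter.mpr ⟨Finset.mem_image.mpr ⟨(x, y), ?_, rfl⟩, hxy, hpos⟩
        exact Finset.mem_product.mpr ⟨hx, hy⟩
      have h1 := ht ⟨x - y, hs⟩ N
      simp only [map_sub] at h1
      have h2 : t * (φ x - φ y) - 0 - (N : ℝ) = t * φ x - t * φ y - N := by ring
      rw [h2] at h1
      refine le_trans (le_of_eq ?_) h1
      push_cast
      field_simp
      ring
    intro x hx y hy hxy hne N
    have hne0 : φ (x - y) ≠ 0 := by
      intro h
      apply hne
      have : φ (x - y) = φ 0 := by rw [h, map_zero]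
      exact sub_eq_zero.mp (hφ this)
    rcases lt_or_gt_of_ne hne0 with h | h
    · have h1 := key y hy x hx (by rw [← neg_sub]; exact hsym _ hxy) (by
        rw [← neg_sub, map_neg]; linarith) (-N)
      rw [show t * φ y - t * φ x - ((-N : ℤ) : ℝ) = -(t * φ x - t * φ y - N) by push_cast; ring,
        abs_neg] at h1
      exact h1
    · exact key x hx y hy hxy h N
  refine ⟨⟨fun x => ⟨⌊((2 * d + 1 : ℕ) : ℝ) * Int.fract (t * φ x.1)⌋₊, ?_⟩, ?_⟩⟩
  · rw [Nat.floor_lt (mul_nonneg (by positivity) (Int.fract_nonneg _))]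
    have h1 := Int.fract_lt_one (t * φ x.1)
    have h2 : (0 : ℝ) < ((2 * d + 1 : ℕ) : ℝ) := by positivity
    nlinarith
  · intro x y hadj
    have hadj' := G'.coe_adj_sub x y hadj
    rw [SimpleGraph.fromRel_adj] at hadj'
    have hx : x.1 ∈ V0 := hfin.mem_toFinset.mpr x.2
    have hy : y.1 ∈ V0 := hfin.mem_toFinset.mpr y.2
    rw [SimpleGraph.top_adj]
    intro heq
    have heq' := congrArg Fin.val heq
    simp only at heq'
    rcases hadj'.2 with h | h
    · exact color_ne (D := 2 * d) _ _ (hbound _ hx _ hy h hadj'.1) heq'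
    · exact color_ne (D := 2 * d) _ _ (hbound _ hy _ hx h hadj'.1.symm) heq'.symm

end Pool.Agent.TH895.Typ
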