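import Pool.Agent.TH895.Typ.Main
import Pool.Agent.TH895.Typ.Color

set_option autoImplicit false
set_option linter.unusedSectionVars false
set_option linter.unusedVariables false

/-!
Typical symmetric convex bodies: the set of unit vectors is sparse over the rationals.
-/

namespace Pool.Agent.TH895.Typ

open Set Metric Topology TopologicalSpace

/-- Symmetric convex bodies in `ℝ^d`. -/
abbrev Body (d : ℕ) : Type := {K : NonemptyCompacts (EuclideanSpace ℝ (Fin d)) //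
              Convex ℝ (K : Set (EuclideanSpace ℝ (Fin d))) ∧
              (∀ x ∈ (K : Set (EuclideanSpace ℝ (Fin d))),
                -x ∈ (K : Set (EuclideanSpace ℝ (Fin d)))) ∧
              (0 : EuclideanSpace ℝ (Fin d)) ∈
                interior (K : Set (EuclideanSpace ℝ (Fin d)))}

/-- The bodies with separated unit vectors satisfying given rational relations. -/
def Bad (d n m : ℕ) (C : Fin m → Fin n → ℚ) (r : ℕ) : Set (Body d) :=
  {K | d * n < m ∧ ∃ v : Fin n → EuclideanSpace ℝ (Fin d),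
    (∀ i, ∑ k, (C i k : ℝ) • v k ∈
      frontier ((K.1 : NonemptyCompacts (EuclideanSpace ℝ (Fin d))) :
        Set (EuclideanSpace ℝ (Fin d)))) ∧
    ∀ i i', i ≠ i' →
      (1 : ℝ) / (r + 1) ≤ ‖∑ k, (C i k : ℝ) • v k - ∑ k, (C i' k : ℝ) • v k‖ ∧
      (1 : ℝ) / (r + 1) ≤ ‖∑ k, (C i k : ℝ) • v k + ∑ k, (C i' k : ℝ) • v k‖}

theorem hausdorff_fin {d : ℕ} (K L : NonemptyCompacts (EuclideanSpace ℝ (Fin d))) :
    hausdorffEDist (K : Set (EuclideanSpace ℝ (Fin d))) (L : Set (EuclideanSpace ℝ (Fin d))) ≠ ⊤ :=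
  hausdorffEDist_ne_top_of_nonempty_of_bounded K.nonempty L.nonempty
    K.isCompact.isBounded L.isCompact.isBounded

theorem bad_nowhereDense (d n m : ℕ) (C : Fin m → Fin n → ℚ) (r : ℕ) :
    IsNowhereDense (Bad d n m C r) := by
  by_cases hdm : d * n < m
  swap
  · have : Bad d n m C r = ∅ := by
      ext K
      simp [Bad, hdm]
    rw [this]
    exact isNowhereDense_empty
  rw [IsNowhereDense, Set.eq_empty_iff_forall_notMem]
  intro K₀ hK₀
  rw [mem_interior_iff_mem_nhds, Metric.mem_nhds_iff] at hK₀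
  obtain ⟨ε, hε, hball⟩ := hK₀
  have hfr : Module.finrank ℝ (EuclideanSpace ℝ (Fin d)) * n < m := by
    rw [finrank_euclideanSpace_fin]; exact hdm
  obtain ⟨P, hP1, hP2, hP3, hP4, hP5, hP6, δ, hδ, hP7⟩ :=
    exists_good (K₀ := (K₀.1 : Set (EuclideanSpace ℝ (Fin d)))) K₀.1.isCompact K₀.2.1 K₀.2.2.1
      K₀.2.2.2 (half_pos hε) (fun i k => (C i k : ℝ)) hfr
      (η := (1 : ℝ) / (r + 1)) (by positivity)
  let K₁ : Body d := ⟨⟨⟨P, hP1⟩, ⟨0, interior_subset hP4⟩⟩, hP2, hP3, hP4⟩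
  have hK₁ : K₁ ∈ ball K₀ ε := by
    rw [mem_ball, Subtype.dist_eq, NonemptyCompacts.dist_eq]
    refine lt_of_le_of_lt (hausdorffDist_le_of_mem_dist (half_pos hε).le ?_ ?_) (half_lt_self hε)
    · exact hP5
    · exact hP6
  obtain ⟨K, hKB, hKd⟩ := Metric.mem_closure_iff.mp (hball hK₁) δ hδ
  rw [Subtype.dist_eq, NonemptyCompacts.dist_eq] at hKd
  refine hP7 (K.1 : Set (EuclideanSpace ℝ (Fin d))) K.1.isCompact K.2.1 ?_ ?_ hKB.2
  · intro x hx
    obtain ⟨z, hz, hxz⟩ := exists_dist_lt_of_hausdorffDist_lt' hx hKd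
      (hausdorff_fin K₁.1 K.1)
    exact ⟨z, hz, by rw [← dist_eq_norm, dist_comm]; exact hxz⟩
  · intro z hz
    obtain ⟨x, hx, hxz⟩ := exists_dist_lt_of_hausdorffDist_lt hz hKd
      (hausdorff_fin K₁.1 K.1)
    exact ⟨x, hx, by rw [← dist_eq_norm]; exact hxz⟩

/-- The sparsity property of the set of unit vectors. -/
def Sparse {d : ℕ} (F : Set (EuclideanSpace ℝ (Fin d))) : Prop :=
  ∀ A : Finset (EuclideanSpace ℝ (Fin d)), (∀ x ∈ A, x ∈ F) →
      (∀ x ∈ A, ∀ y ∈ A, x + y ≠ 0) →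
      A.card ≤ d * Module.finrank ℚ (Submodule.span ℚ (A : Set (EuclideanSpace ℝ (Fin d))))

theorem not_sparse_bad {d : ℕ} (K : Body d)
    (h : ¬ Sparse (frontier ((K.1 : NonemptyCompacts (EuclideanSpace ℝ (Fin d))) :
        Set (EuclideanSpace ℝ (Fin d))))) :
    ∃ (n m : ℕ) (C : Fin m → Fin n → ℚ) (r : ℕ), K ∈ Bad d n m C r := by
  classical
  unfold Sparse at h
  push Not at h
  obtain ⟨A, hA1, hA2, hA3⟩ := h
  set W := Submodule.span ℚ (A : Set (EuclideanSpace ℝ (Fin d))) with hW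
  have : Module.Finite ℚ W := Module.Finite.span_of_finite ℚ A.finite_toSet
  let b := Module.finBasis ℚ W
  let e := A.equivFin.symm
  have hmem : ∀ i : Fin A.card, ((e i).1 : EuclideanSpace ℝ (Fin d)) ∈ W :=
    fun i => Submodule.subset_span (e i).2
  let C : Fin A.card → Fin (Module.finrank ℚ W) → ℚ := fun i k => b.repr ⟨(e i).1, hmem i⟩ k
  have hsum : ∀ i, ∑ k, (C i k : ℝ) • ((b k : W) : EuclideanSpace ℝ (Fin d)) = (e i).1 := by
    intro i
    have h1 := congrArg (Subtype.val) (b.sum_repr ⟨(e i).1, hmem i⟩)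
    rw [AddSubmonoidClass.coe_finsetSum] at h1
    rw [← h1]
    refine Finset.sum_congr rfl fun k _ => ?_
    rw [Submodule.coe_smul]
    exact Rat.cast_smul_eq_qsmul ℝ _ _
  obtain ⟨r, hr⟩ : ∃ r : ℕ, ∀ p : Fin A.card × Fin A.card, p.1 ≠ p.2 →
      (1 : ℝ) / (r + 1) ≤ ‖((e p.1).1 : EuclideanSpace ℝ (Fin d)) - (e p.2).1‖ ∧
      (1 : ℝ) / (r + 1) ≤ ‖((e p.1).1 : EuclideanSpace ℝ (Fin d)) + (e p.2).1‖ := by
    have hev : ∀ᶠ r : ℕ in Filter.atTop, ∀ p : Fin A.card × Fin A.card, p.1 ≠ p.2 →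
      (1 : ℝ) / (r + 1) ≤ ‖((e p.1).1 : EuclideanSpace ℝ (Fin d)) - (e p.2).1‖ ∧
      (1 : ℝ) / (r + 1) ≤ ‖((e p.1).1 : EuclideanSpace ℝ (Fin d)) + (e p.2).1‖ := by
      rw [Filter.eventually_all]
      intro p
      by_cases hp : p.1 = p.2
      · exact Filter.Eventually.of_forall fun _ h => absurd hp h
      · have h1 : 0 < ‖((e p.1).1 : EuclideanSpace ℝ (Fin d)) - (e p.2).1‖ := by
          rw [norm_pos_iff, sub_ne_zero]
          intro h
          exact hp (e.injective (Subtype.ext h))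
        have h2 : 0 < ‖((e p.1).1 : EuclideanSpace ℝ (Fin d)) + (e p.2).1‖ := by
          rw [norm_pos_iff]
          exact hA2 _ (e p.1).2 _ (e p.2).2
        have ht := tendsto_one_div_add_atTop_nhds_zero_nat (𝕜 := ℝ)
        filter_upwards [ht.eventually (gt_mem_nhds h1), ht.eventually (gt_mem_nhds h2)]
          with r hr1 hr2 _
        exact ⟨hr1.le, hr2.le⟩
    exact hev.exists
  refine ⟨_, _, C, r, hA3, fun k => ((b k : W) : EuclideanSpace ℝ (Fin d)), ?_, ?_⟩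
  · intro i
    rw [hsum i]
    exact hA1 _ (e i).2
  · intro i i' hne
    rw [hsum i, hsum i']
    exact hr (i, i') hne

theorem frontier_symm {d : ℕ} (K : Body d) {x : EuclideanSpace ℝ (Fin d)}
    (hx : x ∈ frontier ((K.1 : NonemptyCompacts (EuclideanSpace ℝ (Fin d))) :
        Set (EuclideanSpace ℝ (Fin d)))) :
    -x ∈ frontier ((K.1 : NonemptyCompacts (EuclideanSpace ℝ (Fin d))) :
        Set (EuclideanSpace ℝ (Fin d))) := by
  have h : -((K.1 : NonemptyCompacts (EuclideanSpace ℝ (Fin d))) :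
        Set (EuclideanSpace ℝ (Fin d))) = K.1 := by
    ext y
    rw [Set.mem_neg]
    constructor
    · intro hy
      have := K.2.2.1 _ hy
      rwa [neg_neg] at this
    · exact K.2.2.1 y
  have h2 := (Homeomorph.neg (EuclideanSpace ℝ (Fin d))).image_frontier
    ((K.1 : NonemptyCompacts (EuclideanSpace ℝ (Fin d))) : Set (EuclideanSpace ℝ (Fin d)))
  simp only [Homeomorph.coe_neg, Set.image_neg_eq_neg] at h2
  rw [h] at h2
  rw [← h2]
  rw [Set.mem_neg, neg_neg]
  exact hx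

/-- For a typical norm on `ℝ^d` the unit distance graph has a proper colouring with `2 d + 1`
colours. -/
theorem typical_colorable {d : ℕ} (hd : 0 < d) :
    IsMeagre {K : Body d | ¬ (SimpleGraph.fromRel (fun x y : EuclideanSpace ℝ (Fin d) =>
                x - y ∈ frontier
                  ((K.1 : NonemptyCompacts (EuclideanSpace ℝ (Fin d))) :
                    Set (EuclideanSpace ℝ (Fin d))))).Colorable (2 * d + 1)} := by
  have hmeag : IsMeagre (⋃ p : (Σ n m : ℕ, (Fin m → Fin n → ℚ) × ℕ),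
      Bad d p.1 p.2.1 p.2.2.1 p.2.2.2) :=
    isMeagre_iUnion fun p => (bad_nowhereDense d _ _ _ _).isMeagre
  refine hmeag.mono ?_
  intro K hK
  by_contra hcon
  apply hK
  refine colorable_of_sparse hd _ (fun x hx => frontier_symm K hx) ?_
  by_contra hns
  obtain ⟨n, m, C, r, hb⟩ := not_sparse_bad K hns
  exact hcon (Set.mem_iUnion.mpr ⟨⟨n, m, C, r⟩, hb⟩)

theorem eventually_le_pow {ε : ℝ} (hε : 0 < ε) :
    ∃ d₀ : ℕ, 0 < d₀ ∧ ∀ d : ℕ, d₀ ≤ d → ((2 * d + 1 : ℕ) : ℝ) ≤ (1 + ε) ^ d := by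
  have h := tendsto_pow_const_div_const_pow_of_one_lt 1 (show (1 : ℝ) < 1 + ε by linarith)
  have h2 := h.eventually (gt_mem_nhds (show (0 : ℝ) < 1 / 3 by norm_num))
  obtain ⟨N, hN⟩ := Filter.eventually_atTop.mp h2
  refine ⟨max N 1, by positivity, fun d hd => ?_⟩
  have h3 := hN d ((le_max_left _ _).trans hd)
  have h4 : 1 ≤ d := (le_max_right _ _).trans hd
  have h5 : (0 : ℝ) < (1 + ε) ^ d := by positivity
  rw [pow_one, div_lt_iff₀ h5] at h3
  have h6 : (1 : ℝ) ≤ d := by exact_mod_cast h4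
  push_cast
  linarith

end Pool.Agent.TH895.Typ
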