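import Pool.Agent.TH895.Typ.Poly

set_option autoImplicit false
set_option linter.unusedSectionVars false
set_option linter.unusedVariables false

/-!
Near every symmetric convex body there is an open set of bodies without unit vectors
satisfying too many given rational relations.
-/

namespace Pool.Agent.TH895.Typ

open Set Metric Topology

variable {E : Type*} [NormedAddCommGroup E] [InnerProductSpace ℝ E] [FiniteDimensional ℝ E]

theorem gauge_isSemi {K : Set E} (hc : Convex ℝ K) (hs : ∀ x ∈ K, -x ∈ K)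
    (h0 : (0 : E) ∈ interior K) : IsSemi (gauge K) := by
  have hnhds : K ∈ 𝓝 (0 : E) := mem_interior_iff_mem_nhds.mp h0
  refine ⟨fun x => gauge_nonneg x, fun x y => gauge_add_le hc (absorbent_nhds_zero hnhds) x y, ?_⟩
  intro c x
  rcases le_total 0 c with h | h
  · rw [gauge_smul_of_nonneg h, abs_of_nonneg h, smul_eq_mul]
  · have h1 : c • x = -((-c) • x) := by simp
    rw [h1, gauge_neg hs, gauge_smul_of_nonneg (by linarith), abs_of_nonpos h, smul_eq_mul]

theorem exists_relation {n m N : ℕ} (C : Fin m → Fin n → ℝ)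
    (hm : Module.finrank ℝ E * n < m) (f : Fin N → E →ₗ[ℝ] ℝ) (σ : Fin m ↪ Fin N) :
    ∃ lam : Fin m → ℝ, lam ≠ 0 ∧ ∀ k : Fin n, ∑ i, lam i • (C i k • f (σ i)) = 0 := by
  have hdep : ¬ LinearIndependent ℝ (fun i : Fin m => fun k : Fin n => C i k • f (σ i)) := by
    intro hli
    have h1 := hli.fintype_card_le_finrank
    rw [Fintype.card_fin] at h1
    have h2 : Module.finrank ℝ (Fin n → (E →ₗ[ℝ] ℝ)) = n * Module.finrank ℝ E := by
      rw [Module.finrank_pi_fintype]
      simp
    rw [h2] at h1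
    rw [mul_comm] at h1
    omega
  rw [Fintype.not_linearIndependent_iff] at hdep
  obtain ⟨lam, h1, i, hi⟩ := hdep
  refine ⟨lam, fun h => hi (by rw [h]; rfl), fun k => ?_⟩
  have := congrFun h1 k
  simpa using this

/-- The main lemma. -/
theorem exists_good {K₀ : Set E} (hK : IsCompact K₀) (hKc : Convex ℝ K₀)
    (hKs : ∀ x ∈ K₀, -x ∈ K₀) (hK0 : (0 : E) ∈ interior K₀) {ε : ℝ} (hε : 0 < ε)
    {n m : ℕ} (C : Fin m → Fin n → ℝ) (hm : Module.finrank ℝ E * n < m) {η : ℝ} (hη : 0 < η) :
    ∃ P : Set E, IsCompact P ∧ Convex ℝ P ∧ (∀ x ∈ P, -x ∈ P) ∧ (0 : E) ∈ interior P ∧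
      (∀ x ∈ P, ∃ y ∈ K₀, dist x y ≤ ε) ∧ (∀ y ∈ K₀, ∃ x ∈ P, dist y x ≤ ε) ∧
      ∃ δ > 0, ∀ K : Set E, IsCompact K → Convex ℝ K →
        (∀ x ∈ K, ∃ z ∈ P, ‖x - z‖ < δ) → (∀ z ∈ P, ∃ x ∈ K, ‖z - x‖ < δ) →
        ¬ ∃ v : Fin n → E, (∀ i, ∑ k, C i k • v k ∈ frontier K) ∧
          ∀ i i', i ≠ i' → η ≤ ‖∑ k, C i k • v k - ∑ k, C i' k • v k‖ ∧
            η ≤ ‖∑ k, C i k • v k + ∑ k, C i' k • v k‖ := by
  classical
  have hnhds : K₀ ∈ 𝓝 (0 : E) := mem_interior_iff_mem_nhds.mp hK0
  have hg := gauge_isSemi hKc hKs hK0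
  have hgc : Continuous (gauge K₀) := continuous_gauge hKc hnhds
  obtain ⟨R, hR0, hR⟩ : ∃ R : ℝ, 0 < R ∧ ∀ x ∈ K₀, ‖x‖ ≤ R := by
    obtain ⟨R, hR⟩ := hK.isBounded.exists_norm_le
    exact ⟨max R 1, by positivity, fun x hx => (hR x hx).trans (le_max_left _ _)⟩
  -- parameters
  set b : ℝ := ε / R with hb
  have hb0 : 0 < b := by positivity
  set c : ℝ := b / R ^ 2 with hc
  have hc0 : 0 < c := by positivity
  have hcR : c * R ^ 2 = b := by rw [hc]; field_simp
  have hbR : b * R = ε := by rw [hb]; field_simp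
  set σ0 : ℝ := min 1 (c * η ^ 2 / 32) with hσ0
  have hσ00 : 0 < σ0 := by positivity
  have hσ01 : σ0 ≤ 1 := min_le_left _ _
  have hσ02 : 16 * σ0 < c * η ^ 2 := by
    have : σ0 ≤ c * η ^ 2 / 32 := min_le_right _ _
    have h2 : 0 < c * η ^ 2 := by positivity
    linarith
  set τ : ℝ := min σ0 (min b 1) / 8 with hτ
  have hτ0 : 0 < τ := by positivity
  have hτσ : 8 * τ ≤ σ0 := by
    have : min σ0 (min b 1) ≤ σ0 := min_le_left _ _
    rw [hτ]; linarith
  have hτb : 8 * τ ≤ b := by
    have : min σ0 (min b 1) ≤ b := (min_le_right _ _).trans (min_le_left _ _)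
    rw [hτ]; linarith
  have hτ1 : 8 * τ ≤ 1 := by
    have : min σ0 (min b 1) ≤ 1 := (min_le_right _ _).trans (min_le_right _ _)
    rw [hτ]; linarith
  -- the norm
  set h : E → ℝ := hn (gauge K₀) c with hh
  have hcont : Continuous h := by
    rw [hh]; unfold hn
    fun_prop
  have hpos : ∀ x, x ≠ 0 → 0 < h x := by
    intro x hx
    apply Real.sqrt_pos.mpr
    have : 0 < ‖x‖ := norm_pos_iff.mpr hx
    positivity
  have hsm : ∀ (r : ℝ) x, h (r • x) = |r| * h x := fun r x => hn_smul hg c r x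
  have hadd : ∀ x y, h (x + y) ≤ h x + h y := fun x y => hn_add_le hg hc0.le x y
  obtain ⟨N, f, hf1, hf2⟩ := exists_net hcont (fun x => hn_nonneg _ _ x) hpos hadd hsm hτ0
  have hfabs : ∀ j x, |f j x| ≤ h x := by
    intro j x
    rw [abs_le]
    have h1 := hf1 j (-x)
    rw [map_neg] at h1
    have h2 : h (-x) = h x := hn_neg hg c x
    rw [h2] at h1
    exact ⟨by linarith, hf1 j x⟩
  -- relations and generic heights
  choose lam hlam1 hlam2 using exists_relation C hm f
  obtain ⟨β, hβ1, hβ2⟩ := exists_generic lam hlam1 hτ0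
  have hP_h : ∀ x ∈ poly f β, (1 - τ) * h x ≤ 1 + τ := by
    intro x hx
    by_cases hx0 : x = 0
    · have : h x = 0 := by
        have := hsm 0 x
        simp only [zero_smul, abs_zero, zero_mul] at this
        rw [hx0]; exact this
      rw [this]; linarith
    · obtain ⟨j, hj⟩ := hf2 x hx0
      have h1 := hx j
      have h2 := le_abs_self (f j x)
      linarith [(hβ1 j).2]
  have hg_le_h : ∀ x, gauge K₀ x ≤ h x := by
    intro x
    apply le_of_sq_le_sq _ (hn_nonneg _ _ x)
    rw [hn_sq _ hc0.le]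
    nlinarith [mul_nonneg hc0.le (sq_nonneg ‖x‖)]
  have hP_K : ∀ x ∈ poly f β, (1 + b)⁻¹ • x ∈ K₀ := by
    intro x hx
    have h1 := hP_h x hx
    have h2 : h x ≤ 1 + b := by
      have h3 : 0 ≤ h x := hn_nonneg _ _ x
      nlinarith
    have h4 : gauge K₀ ((1 + b)⁻¹ • x) ≤ 1 := by
      rw [gauge_smul_of_nonneg (by positivity), smul_eq_mul, inv_mul_le_iff₀ (by positivity),
        mul_one]
      exact (hg_le_h x).trans h2
    have h5 := (gauge_le_one_iff_mem_closure hKc hnhds).mp h4
    rwa [hK.isClosed.closure_eq] at h5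
  have hPbd : Bornology.IsBounded (poly f β) := by
    rw [isBounded_iff_forall_norm_le]
    refine ⟨(1 + b) * R, fun x hx => ?_⟩
    have h1 := hR _ (hP_K x hx)
    rw [norm_smul, Real.norm_eq_abs, abs_of_pos (by positivity), inv_mul_le_iff₀ (by positivity)] at h1
    exact h1
  have hPcomp : IsCompact (poly f β) :=
    isCompact_of_isClosed_isBounded (poly_closed f β) hPbd
  have hPint : (0 : E) ∈ interior (poly f β) := by
    refine mem_interior.mpr ⟨{x | h x < 1}, ?_, isOpen_lt hcont continuous_const, ?_⟩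
    · intro x hx j
      exact (hfabs j x).trans ((le_of_lt hx).trans (hβ1 j).1)
    · show h 0 < 1
      have := hsm 0 (0 : E)
      simp only [zero_smul, abs_zero, zero_mul] at this
      rw [this]; exact one_pos
  have hP0 : (poly f β).Nonempty := ⟨0, interior_subset hPint⟩
  obtain ⟨ρ, hρ0, hρ⟩ := Metric.nhds_basis_closedBall.mem_iff.mp (mem_interior_iff_mem_nhds.mp hPint)
  -- the size of the neighbourhood
  obtain ⟨θ, hθ0, hθτ, hθL⟩ : ∃ θ : ℝ, 0 < θ ∧ θ ≤ τ ∧
      ∀ p : (Fin m ↪ Fin N) × (Fin m → Bool),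
        θ * (2 * ∑ i, |lam p.1 i|) < |∑ i, lam p.1 i * sgn (p.2 i) * β (p.1 i)| := by
    have hev : ∀ᶠ θ : ℝ in 𝓝[>] 0, ∀ p : (Fin m ↪ Fin N) × (Fin m → Bool),
        θ * (2 * ∑ i, |lam p.1 i|) < |∑ i, lam p.1 i * sgn (p.2 i) * β (p.1 i)| := by
      rw [Filter.eventually_all]
      intro p
      have ht : Filter.Tendsto (fun θ : ℝ => θ * (2 * ∑ i, |lam p.1 i|)) (𝓝[>] 0) (𝓝 0) := by
        have : Filter.Tendsto (fun θ : ℝ => θ * (2 * ∑ i, |lam p.1 i|)) (𝓝 0) (𝓝 0) := by
          have h1 : Continuous (fun θ : ℝ => θ * (2 * ∑ i, |lam p.1 i|)) := by fun_prop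
          have h2 := h1.tendsto 0
          simpa using h2
        exact this.mono_left nhdsWithin_le_nhds
      exact ht.eventually (gt_mem_nhds (abs_pos.mpr (hβ2 p.1 p.2)))
    have hev2 : ∀ᶠ θ : ℝ in 𝓝[>] 0, θ ≤ τ := by
      have : ∀ᶠ θ : ℝ in 𝓝 0, θ ≤ τ := (gt_mem_nhds hτ0).mono fun _ h => le_of_lt h
      exact this.filter_mono nhdsWithin_le_nhds
    obtain ⟨θ, h1, h2, h3⟩ := (hev.and (hev2.and self_mem_nhdsWithin)).exists
    exact ⟨θ, h3, h2, h1⟩
  have hθ1 : θ < 1 := by linarith
  refine ⟨poly f β, hPcomp, poly_convex f β, fun x hx => poly_symm f β hx, hPint, ?_, ?_,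
    θ * ρ, by positivity, ?_⟩
  · intro x hx
    refine ⟨_, hP_K x hx, ?_⟩
    rw [dist_eq_norm]
    have h1 : x - (1 + b)⁻¹ • x = b • ((1 + b)⁻¹ • x) := by
      rw [smul_smul]
      have : x - (1 + b)⁻¹ • x = (1 - (1 + b)⁻¹) • x := by rw [sub_smul, one_smul]
      rw [this]
      congr 1
      field_simp
      ring
    rw [h1, norm_smul, Real.norm_eq_abs, abs_of_pos hb0]
    calc b * ‖(1 + b)⁻¹ • x‖ ≤ b * R := by
          have := hR _ (hP_K x hx)
          gcongr
      _ = ε := hbR
  · intro y hy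
    have hy1 : h y ≤ 1 + b := by
      have h1 : gauge K₀ y ≤ 1 := gauge_le_one_of_mem hy
      have h2 := hR y hy
      have h3 : h y ^ 2 ≤ (1 + b) ^ 2 := by
        rw [hh, hn_sq _ hc0.le]
        have h4 : gauge K₀ y ^ 2 ≤ 1 := by
          have := gauge_nonneg (s := K₀) y
          nlinarith
        have h5 : c * ‖y‖ ^ 2 ≤ c * R ^ 2 := by gcongr
        nlinarith
      exact le_of_sq_le_sq h3 (by positivity)
    refine ⟨(1 + b)⁻¹ • y, ?_, ?_⟩
    · intro j
      rw [map_smul, smul_eq_mul, abs_mul, abs_of_pos (by positivity : (0:ℝ) < (1 + b)⁻¹),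
        inv_mul_le_iff₀ (by positivity)]
      calc |f j y| ≤ h y := hfabs j y
        _ ≤ (1 + b) * 1 := by rw [mul_one]; exact hy1
        _ ≤ (1 + b) * β j := by
            have := (hβ1 j).1
            gcongr
    · rw [dist_eq_norm]
      have h1 : y - (1 + b)⁻¹ • y = (b * (1 + b)⁻¹) • y := by
        have : y - (1 + b)⁻¹ • y = (1 - (1 + b)⁻¹) • y := by rw [sub_smul, one_smul]
        rw [this]
        congr 1
        field_simp
        ring
      rw [h1, norm_smul, Real.norm_eq_abs, abs_of_pos (by positivity)]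
      have h2 : (1 + b)⁻¹ ≤ 1 := inv_le_one_of_one_le₀ (by linarith)
      calc b * (1 + b)⁻¹ * ‖y‖ ≤ b * 1 * R := by
            have := hR y hy
            gcongr
        _ = ε := by rw [mul_one]; exact hbR
  · rintro K hKcomp hKconv h1 h2 ⟨v, hv1, hv2⟩
    set u : Fin m → E := fun i => ∑ k, C i k • v k with hu
    have huK : ∀ i, u i ∈ K := fun i => hKcomp.isClosed.frontier_subset (hv1 i)
    have hfac : ∀ i, ∃ j, (1 - θ) * β j ≤ |f j (u i)| := fun i =>
      near_frontier f β hθ0 hθ1 hPcomp hP0 hρ hKcomp hKconv h2 (hv1 i)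
    choose s hs using hfac
    have hup : ∀ i j, |f j (u i)| ≤ (1 + θ) * β j := fun i j =>
      near_le f β hθ0 hρ h1 (huK i) j
    -- the bound for `h`
    have hhu : ∀ i, h (u i) ≤ 1 + σ0 := by
      intro i
      by_cases hx0 : u i = 0
      · have : h (u i) = 0 := by
          have := hsm 0 (u i)
          simp only [zero_smul, abs_zero, zero_mul] at this
          rw [hx0]; exact this
        rw [this]; linarith
      · obtain ⟨j, hj⟩ := hf2 _ hx0
        have h3 := hup i j
        have h4 := le_abs_self (f j (u i))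
        have h5 : (1 - τ) * h (u i) ≤ (1 + τ) * (1 + τ) := by
          refine hj.trans (h4.trans (h3.trans ?_))
          have := hβ1 j
          have h6 : (1 + θ) * β j ≤ (1 + τ) * (1 + τ) := by
            apply mul_le_mul _ this.2 (by linarith) (by linarith)
            linarith
          exact h6
        have h6 : 0 ≤ h (u i) := hn_nonneg _ _ _
        nlinarith
    let sg : Fin m → Bool := fun i => decide (0 ≤ f (s i) (u i))
    have hsg : ∀ i, f (s i) (u i) = sgn (sg i) * |f (s i) (u i)| := by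
      intro i
      by_cases h3 : 0 ≤ f (s i) (u i)
      · simp [sg, sgn, h3, abs_of_nonneg h3]
      · have h4 : f (s i) (u i) < 0 := lt_of_not_ge h3
        simp [sg, sgn, h3, abs_of_neg h4]
    -- injectivity of the facet assignment
    have hinj : Function.Injective s := by
      intro i i' hii
      by_contra hne
      have hx1 : h (sgn (sg i) • u i) ≤ 1 + σ0 := by rw [hsm, abs_sgn, one_mul]; exact hhu i
      have hx2 : h (sgn (sg i') • u i') ≤ 1 + σ0 := by rw [hsm, abs_sgn, one_mul]; exact hhu i'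
      have hlow : ∀ i₀, 1 - σ0 ≤ f (s i₀) (sgn (sg i₀) • u i₀) := by
        intro i₀
        rw [map_smul, smul_eq_mul, hsg i₀, ← mul_assoc, sgn_mul_self, one_mul]
        have := hs i₀
        have h3 := (hβ1 (s i₀)).1
        have h4 : 0 ≤ 1 - θ := by linarith
        nlinarith
      have hy1 := hlow i
      have hy2 := hlow i'
      rw [← hii] at hy2
      have hcap := cap_small hg hc0.le (f (s i)) (fun x => hf1 (s i) x) hσ00.le hσ01 hx1 hx2 hy1 hy2
      have hd : η ≤ ‖sgn (sg i) • u i - sgn (sg i') • u i'‖ := by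
        have h3 := hv2 i i' hne
        cases hsi : sg i <;> cases hsi' : sg i' <;> simp only [sgn, hsi, hsi']
        · simp only [Bool.false_eq_true, if_false, neg_smul, one_smul]
          rw [show -u i - -u i' = -(u i - u i') by abel, norm_neg]; exact h3.1
        · simp only [Bool.false_eq_true, if_false, if_true, neg_smul, one_smul]
          rw [show -u i - u i' = -(u i + u i') by abel, norm_neg]; exact h3.2
        · simp only [Bool.false_eq_true, if_false, if_true, neg_smul, one_smul]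
          rw [show u i - -u i' = u i + u i' by abel]; exact h3.2
        · simp only [if_true, one_smul]; exact h3.1
      have hd2 : c * η ^ 2 ≤ c * ‖sgn (sg i) • u i - sgn (sg i') • u i'‖ ^ 2 := by gcongr
      linarith
    let σ : Fin m ↪ Fin N := ⟨s, hinj⟩
    -- the relation
    have hrel : ∑ i, lam σ i * f (s i) (u i) = 0 := by
      have h3 : ∀ i, f (s i) (u i) = ∑ k, C i k * f (s i) (v k) := by
        intro i
        simp only [hu, map_sum, map_smul, smul_eq_mul]
      simp only [h3, Finset.mul_sum]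
      rw [Finset.sum_comm]
      apply Finset.sum_eq_zero
      intro k _
      have h4 := hlam2 σ k
      have h5 := congrArg (fun φ : E →ₗ[ℝ] ℝ => φ (v k)) h4
      simp only [LinearMap.sum_apply, LinearMap.smul_apply, smul_eq_mul, LinearMap.zero_apply] at h5
      exact h5
    have hL := hθL (σ, sg)
    have hdiff : ∀ i, |sgn (sg i) * β (s i) - f (s i) (u i)| ≤ θ * 2 := by
      intro i
      rw [hsg i, ← mul_sub, abs_mul, abs_sgn, one_mul, abs_le]
      have h3 := hs i
      have h4 := hup i (s i)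
      have h5 := hβ1 (s i)
      constructor <;> nlinarith
    have hsum : ∑ i, lam σ i * sgn (sg i) * β (s i)
        = ∑ i, lam σ i * (sgn (sg i) * β (s i) - f (s i) (u i)) := by
      have : ∑ i, lam σ i * (sgn (sg i) * β (s i) - f (s i) (u i))
          = ∑ i, lam σ i * sgn (sg i) * β (s i) - ∑ i, lam σ i * f (s i) (u i) := by
        rw [← Finset.sum_sub_distrib]
        exact Finset.sum_congr rfl fun i _ => by ring
      rw [this, hrel, sub_zero]
    have hbound : |∑ i, lam σ i * sgn (sg i) * β (s i)| ≤ θ * (2 * ∑ i, |lam σ i|) := by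
      rw [hsum]
      calc |∑ i, lam σ i * (sgn (sg i) * β (s i) - f (s i) (u i))|
          ≤ ∑ i, |lam σ i * (sgn (sg i) * β (s i) - f (s i) (u i))| :=
            Finset.abs_sum_le_sum_abs _ _
        _ ≤ ∑ i, |lam σ i| * (θ * 2) := by
            apply Finset.sum_le_sum
            intro i _
            rw [abs_mul]
            have := hdiff i
            gcongr
        _ = θ * (2 * ∑ i, |lam σ i|) := by rw [← Finset.sum_mul]; ring
    exact absurd hL (not_lt.mpr hbound)

end Pool.Agent.TH895.Typ
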