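import Mathlib

set_option autoImplicit false
set_option linter.unusedSectionVars false
set_option linter.unusedVariables false

/-!
A uniformly convex norm close to a given one, and finitely many supporting functionals.
-/

namespace Pool.Agent.TH895.Typ

open Set Metric

variable {E : Type*} [NormedAddCommGroup E] [InnerProductSpace ℝ E]

/-- A finite even sublinear function. -/
structure IsSemi (g : E → ℝ) : Prop where
  nonneg : ∀ x, 0 ≤ g x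
  add_le : ∀ x y, g (x + y) ≤ g x + g y
  smul : ∀ (c : ℝ) x, g (c • x) = |c| * g x

/-- The Euclidean combination of `g` and `c` times the Euclidean norm. -/
noncomputable def hn (g : E → ℝ) (c : ℝ) (x : E) : ℝ := Real.sqrt (g x ^ 2 + c * ‖x‖ ^ 2)

theorem hn_sq (g : E → ℝ) {c : ℝ} (hc : 0 ≤ c) (x : E) :
    hn g c x ^ 2 = g x ^ 2 + c * ‖x‖ ^ 2 := by
  unfold hn
  rw [Real.sq_sqrt (by positivity)]

theorem hn_nonneg (g : E → ℝ) (c : ℝ) (x : E) : 0 ≤ hn g c x := Real.sqrt_nonneg _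

theorem hn_smul {g : E → ℝ} (hg : IsSemi g) (c r : ℝ) (x : E) :
    hn g c (r • x) = |r| * hn g c x := by
  unfold hn
  rw [hg.smul, norm_smul, Real.norm_eq_abs]
  have : (|r| * g x) ^ 2 + c * (|r| * ‖x‖) ^ 2 = |r| ^ 2 * (g x ^ 2 + c * ‖x‖ ^ 2) := by ring
  rw [this, Real.sqrt_mul (by positivity), Real.sqrt_sq (abs_nonneg r)]

theorem hn_neg {g : E → ℝ} (hg : IsSemi g) (c : ℝ) (x : E) : hn g c (-x) = hn g c x := by
  have := hn_smul hg c (-1) x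
  simpa using this

theorem sqrt_mink {a b c d : ℝ} (_ha : 0 ≤ a) (_hb : 0 ≤ b) (_hc : 0 ≤ c) (_hd : 0 ≤ d) :
    Real.sqrt ((a + b) ^ 2 + (c + d) ^ 2) ≤ Real.sqrt (a ^ 2 + c ^ 2) + Real.sqrt (b ^ 2 + d ^ 2) := by
  have h1 : 0 ≤ Real.sqrt (a ^ 2 + c ^ 2) := Real.sqrt_nonneg _
  have h2 : 0 ≤ Real.sqrt (b ^ 2 + d ^ 2) := Real.sqrt_nonneg _
  have h3 : Real.sqrt (a ^ 2 + c ^ 2) ^ 2 = a ^ 2 + c ^ 2 := Real.sq_sqrt (by positivity)
  have h4 : Real.sqrt (b ^ 2 + d ^ 2) ^ 2 = b ^ 2 + d ^ 2 := Real.sq_sqrt (by positivity)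
  refine Real.sqrt_le_iff.mpr ⟨by positivity, ?_⟩
  have h5 : a * b + c * d ≤ Real.sqrt (a ^ 2 + c ^ 2) * Real.sqrt (b ^ 2 + d ^ 2) := by
    apply le_of_sq_le_sq _ (by positivity)
    rw [mul_pow, h3, h4]
    nlinarith [sq_nonneg (a * d - b * c)]
  nlinarith

theorem hn_add_le {g : E → ℝ} (hg : IsSemi g) {c : ℝ} (hc : 0 ≤ c) (x y : E) :
    hn g c (x + y) ≤ hn g c x + hn g c y := by
  have hs : Real.sqrt c ^ 2 = c := Real.sq_sqrt hc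
  have hs0 : 0 ≤ Real.sqrt c := Real.sqrt_nonneg c
  have key := sqrt_mink (hg.nonneg x) (hg.nonneg y)
    (mul_nonneg hs0 (norm_nonneg x)) (mul_nonneg hs0 (norm_nonneg y))
  rw [mul_pow, mul_pow, hs] at key
  refine le_trans ?_ key
  unfold hn
  apply Real.sqrt_le_sqrt
  have h1 := hg.add_le x y
  have h2 := hg.nonneg (x + y)
  have h3 := norm_add_le x y
  have h4 := norm_nonneg (x + y)
  have h5 : g (x + y) ^ 2 ≤ (g x + g y) ^ 2 := by gcongr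
  have h6 : ‖x + y‖ ^ 2 ≤ (‖x‖ + ‖y‖) ^ 2 := by gcongr
  have h7 : (Real.sqrt c * ‖x‖ + Real.sqrt c * ‖y‖) ^ 2 = c * (‖x‖ + ‖y‖) ^ 2 := by
    rw [← mul_add, mul_pow, hs]
  rw [h7]
  nlinarith [mul_le_mul_of_nonneg_left h6 hc]

/-- Quantitative uniform convexity. -/
theorem hn_mid {g : E → ℝ} (hg : IsSemi g) {c : ℝ} (hc : 0 ≤ c) (x y : E) :
    hn g c (x + y) ^ 2 ≤ 2 * (hn g c x ^ 2 + hn g c y ^ 2) - c * ‖x - y‖ ^ 2 := by
  rw [hn_sq g hc, hn_sq g hc, hn_sq g hc]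
  have h1 := hg.add_le x y
  have h2 := hg.nonneg (x + y)
  have h5 : g (x + y) ^ 2 ≤ (g x + g y) ^ 2 := by gcongr
  have hp := parallelogram_law_with_norm ℝ x y
  have h6 : ‖x + y‖ ^ 2 = 2 * (‖x‖ ^ 2 + ‖y‖ ^ 2) - ‖x - y‖ ^ 2 := by nlinarith
  rw [h6]
  nlinarith [sq_nonneg (g x - g y)]

/-- Two points of a thin cap are close. -/
theorem cap_small {g : E → ℝ} (hg : IsSemi g) {c : ℝ} (hc : 0 ≤ c) (f : E →ₗ[ℝ] ℝ)
    (hf : ∀ x, f x ≤ hn g c x) {σ : ℝ} (hσ : 0 ≤ σ) (hσ1 : σ ≤ 1) {x y : E}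
    (hx : hn g c x ≤ 1 + σ) (hy : hn g c y ≤ 1 + σ) (hfx : 1 - σ ≤ f x) (hfy : 1 - σ ≤ f y) :
    c * ‖x - y‖ ^ 2 ≤ 16 * σ := by
  have h1 := hn_mid hg hc x y
  have h2 : 2 * (1 - σ) ≤ hn g c (x + y) := by
    refine le_trans ?_ (hf (x + y))
    rw [map_add]; linarith
  have h3 : (2 * (1 - σ)) ^ 2 ≤ hn g c (x + y) ^ 2 := by
    have : 0 ≤ 2 * (1 - σ) := by linarith
    gcongr
  have h4 : hn g c x ^ 2 ≤ (1 + σ) ^ 2 := by
    have := hn_nonneg g c x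
    gcongr
  have h5 : hn g c y ^ 2 ≤ (1 + σ) ^ 2 := by
    have := hn_nonneg g c y
    gcongr
  nlinarith

/-- Supporting functionals. -/
theorem exists_support {h : E → ℝ} (h0 : ∀ x, 0 ≤ h x) (hadd : ∀ x y, h (x + y) ≤ h x + h y)
    (hsmul : ∀ (c : ℝ) x, h (c • x) = |c| * h x) (x₀ : E) (hx₀ : x₀ ≠ 0) :
    ∃ f : E →ₗ[ℝ] ℝ, (∀ x, f x ≤ h x) ∧ f x₀ = h x₀ := by
  let p : E →ₗ.[ℝ] ℝ := LinearPMap.mkSpanSingleton (σ := RingHom.id ℝ) x₀ (h x₀) hx₀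
  have hp : ∀ (c : ℝ) (hx : c • x₀ ∈ p.domain), p ⟨c • x₀, hx⟩ = c * h x₀ := by
    intro c hx
    exact LinearPMap.mkSpanSingleton'_apply (σ := RingHom.id ℝ) _ _ _ c hx
  obtain ⟨g, hg1, hg2⟩ := exists_extension_of_le_sublinear p h
    (fun c hc x => by rw [hsmul, abs_of_pos hc]) hadd
    (by
      rintro ⟨x, hx⟩
      obtain ⟨c, rfl⟩ := Submodule.mem_span_singleton.mp hx
      rw [hp, hsmul]
      exact mul_le_mul_of_nonneg_right (le_abs_self c) (h0 x₀))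
  refine ⟨g, hg2, ?_⟩
  have hm : (1 : ℝ) • x₀ ∈ p.domain := by
    rw [one_smul]
    exact Submodule.mem_span_singleton_self x₀
  have h1 := hg1 ⟨(1 : ℝ) • x₀, hm⟩
  rw [hp, one_mul] at h1
  simpa using h1

end Pool.Agent.TH895.Typ
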