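import Pool.Agent.TH895.Typ.Norm

set_option autoImplicit false
set_option linter.unusedSectionVars false
set_option linter.unusedVariables false

/-!
Polytopes close to a given convex body, generic perturbations of their facets.
-/

namespace Pool.Agent.TH895.Typ

open Set Metric Topology

variable {E : Type*} [NormedAddCommGroup E] [InnerProductSpace ℝ E] [FiniteDimensional ℝ E]

/-- Finitely many functionals which almost determine a norm. -/
theorem exists_net {h : E → ℝ} (hcont : Continuous h) (h0 : ∀ x, 0 ≤ h x)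
    (hpos : ∀ x, x ≠ 0 → 0 < h x)
    (hadd : ∀ x y, h (x + y) ≤ h x + h y) (hsmul : ∀ (c : ℝ) x, h (c • x) = |c| * h x)
    {τ : ℝ} (hτ : 0 < τ) :
    ∃ (N : ℕ) (f : Fin N → E →ₗ[ℝ] ℝ), (∀ j x, f j x ≤ h x) ∧
      ∀ x, x ≠ 0 → ∃ j, (1 - τ) * h x ≤ f j x := by
  classical
  have hex : ∀ x₀ : E, ∃ f : E →ₗ[ℝ] ℝ, (∀ x, f x ≤ h x) ∧ f x₀ = h x₀ := by
    intro x₀
    by_cases hx : x₀ = 0
    · refine ⟨0, fun x => by simpa using h0 x, ?_⟩
      have := hsmul 0 (0 : E)
      simp at this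
      simp [hx, this]
    · exact exists_support h0 hadd hsmul x₀ hx
  choose f hf1 hf2 using hex
  obtain ⟨t, ht1, ht2⟩ := (isCompact_sphere (0 : E) 1).elim_nhds_subcover
    (fun x₀ => {x | (1 - τ) * h x < f x₀ x}) (by
      intro x hx
      have hx0 : x ≠ 0 := by
        rintro rfl
        simp at hx
      apply IsOpen.mem_nhds
      · exact isOpen_lt (by fun_prop) (f x).continuous_of_finiteDimensional
      · show (1 - τ) * h x < f x x
        rw [hf2]
        nlinarith [hpos x hx0])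
  refine ⟨t.card, fun j => f (t.equivFin.symm j), fun j x => hf1 _ x, ?_⟩
  intro x hx
  have hn : 0 < ‖x‖ := norm_pos_iff.mpr hx
  have hmem : (‖x‖⁻¹ • x) ∈ sphere (0 : E) 1 := by
    simp [norm_smul, hn.ne']
  have := ht2 hmem
  simp only [mem_iUnion, Set.mem_ofPred_eq] at this
  obtain ⟨y, hy, hlt⟩ := this
  refine ⟨t.equivFin ⟨y, hy⟩, ?_⟩
  simp only [Equiv.symm_apply_apply]
  rw [map_smul, hsmul, abs_of_pos (inv_pos.mpr hn), smul_eq_mul] at hlt
  have h1 : ‖x‖⁻¹ * ((1 - τ) * h x) < ‖x‖⁻¹ * f y x := by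
    calc ‖x‖⁻¹ * ((1 - τ) * h x) = (1 - τ) * (‖x‖⁻¹ * h x) := by ring
      _ < _ := hlt
  exact (lt_of_mul_lt_mul_left h1 (inv_pos.mpr hn).le).le

/-- The sign attached to a Boolean. -/
def sgn (b : Bool) : ℝ := if b then 1 else -1

theorem sgn_ne (b : Bool) : sgn b ≠ 0 := by cases b <;> simp [sgn]

theorem abs_sgn (b : Bool) : |sgn b| = 1 := by cases b <;> simp [sgn]

theorem sgn_mul_self (b : Bool) : sgn b * sgn b = 1 := by cases b <;> simp [sgn]

/-- Generic perturbations. -/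
theorem exists_generic {ι : Type} [Fintype ι] {m : ℕ} (lam : (Fin m ↪ ι) → Fin m → ℝ)
    (hlam : ∀ σ, lam σ ≠ 0) {τ : ℝ} (hτ : 0 < τ) :
    ∃ β : ι → ℝ, (∀ j, 1 ≤ β j ∧ β j ≤ 1 + τ) ∧
      ∀ (σ : Fin m ↪ ι) (s : Fin m → Bool), ∑ i, lam σ i * sgn (s i) * β (σ i) ≠ 0 := by
  classical
  let U : (Fin m ↪ ι) × (Fin m → Bool) → Set (ι → ℝ) :=
    fun p => {β | ∑ i, lam p.1 i * sgn (p.2 i) * β (p.1 i) ≠ 0}
  have hd : Dense (⋂ p, U p) := by
    apply dense_iInter_of_isOpen
    · rintro ⟨σ, s⟩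
      exact isOpen_ne_fun (by fun_prop) continuous_const
    · rintro ⟨σ, s⟩
      rw [Metric.dense_iff]
      intro β r hr
      by_cases hb : β ∈ U (σ, s)
      · exact ⟨β, mem_ball_self hr, hb⟩
      · obtain ⟨i₀, hi₀⟩ : ∃ i, lam σ i ≠ 0 := by
          by_contra hcon
          push Not at hcon
          exact hlam σ (funext hcon)
        have hb0 : ∑ i, lam σ i * sgn (s i) * β (σ i) = 0 := by
          simpa [U] using hb
        let δ : ι → ℝ := Pi.single (σ i₀) (r / 2)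
        refine ⟨β + δ, ?_, ?_⟩
        · rw [mem_ball, dist_eq_norm, add_sub_cancel_left]
          show ‖(Pi.single (σ i₀) (r / 2) : ι → ℝ)‖ < r
          rw [Pi.norm_single, Real.norm_eq_abs, abs_of_pos (by linarith)]
          linarith
        · show ∑ i, lam σ i * sgn (s i) * (β (σ i) + δ (σ i)) ≠ 0
          have : ∑ i, lam σ i * sgn (s i) * (β (σ i) + δ (σ i))
              = lam σ i₀ * sgn (s i₀) * (r / 2) := by
            simp only [mul_add, Finset.sum_add_distrib, hb0, zero_add]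
            rw [Finset.sum_eq_single i₀]
            · simp only [δ, Pi.single_eq_same]
            · intro i _ hne
              have : δ (σ i) = 0 := Pi.single_eq_of_ne (fun h => hne (σ.injective h)) _
              rw [this, mul_zero]
            · intro h; exact absurd (Finset.mem_univ _) h
          rw [this]
          exact mul_ne_zero (mul_ne_zero hi₀ (sgn_ne _)) (by linarith)
  obtain ⟨β, hβ1, hβ2⟩ := hd.exists_mem_open
    (isOpen_set_pi (i := (Set.univ : Set ι)) (s := fun _ => Ioo (1 : ℝ) (1 + τ)) Set.finite_univ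
      (fun _ _ => isOpen_Ioo))
    ⟨fun _ => 1 + τ / 2, fun _ _ => ⟨by linarith, by linarith⟩⟩
  refine ⟨β, fun j => ⟨(hβ2 j (Set.mem_univ _)).1.le, (hβ2 j (Set.mem_univ _)).2.le⟩, ?_⟩
  intro σ s
  exact (Set.mem_iInter.mp hβ1) (σ, s)

/-- The symmetric polytope with facet functionals `f j` and heights `β j`. -/
def poly {N : ℕ} (f : Fin N → E →ₗ[ℝ] ℝ) (β : Fin N → ℝ) : Set E := {x | ∀ j, |f j x| ≤ β j}

theorem poly_convex {N : ℕ} (f : Fin N → E →ₗ[ℝ] ℝ) (β : Fin N → ℝ) : Convex ℝ (poly f β) := by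
  intro x hx y hy a b ha hb hab j
  rw [map_add, map_smul, map_smul, smul_eq_mul, smul_eq_mul]
  calc |a * f j x + b * f j y| ≤ |a * f j x| + |b * f j y| := abs_add_le _ _
    _ = a * |f j x| + b * |f j y| := by rw [abs_mul, abs_mul, abs_of_nonneg ha, abs_of_nonneg hb]
    _ ≤ a * β j + b * β j := by
        have h1 := hx j
        have h2 := hy j
        gcongr
    _ = β j := by rw [← add_mul, hab, one_mul]

theorem poly_symm {N : ℕ} (f : Fin N → E →ₗ[ℝ] ℝ) (β : Fin N → ℝ) {x : E} (hx : x ∈ poly f β) :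
    -x ∈ poly f β := by
  intro j
  rw [map_neg, abs_neg]
  exact hx j

theorem poly_closed {N : ℕ} (f : Fin N → E →ₗ[ℝ] ℝ) (β : Fin N → ℝ) : IsClosed (poly f β) := by
  have : poly f β = ⋂ j, {x | |f j x| ≤ β j} := by
    ext x; simp [poly]
  rw [this]
  refine isClosed_iInter fun j => ?_
  exact isClosed_le ((f j).continuous_of_finiteDimensional.abs) continuous_const

/-- Points of a body close to a polytope. -/
theorem near_le {N : ℕ} (f : Fin N → E →ₗ[ℝ] ℝ) (β : Fin N → ℝ) {ρ θ : ℝ} (hθ : 0 < θ)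
    (hball : closedBall (0 : E) ρ ⊆ poly f β) {K : Set E}
    (h1 : ∀ x ∈ K, ∃ z ∈ poly f β, ‖x - z‖ < θ * ρ) {x : E} (hx : x ∈ K) (j : Fin N) :
    |f j x| ≤ (1 + θ) * β j := by
  obtain ⟨z, hz, hxz⟩ := h1 x hx
  have h2 : θ⁻¹ • (x - z) ∈ poly f β := by
    apply hball
    rw [mem_closedBall_zero_iff, norm_smul, Real.norm_eq_abs, abs_of_pos (inv_pos.mpr hθ)]
    rw [inv_mul_le_iff₀ hθ]
    exact hxz.le
  have h3 := h2 j
  rw [map_smul, smul_eq_mul, abs_mul, abs_of_pos (inv_pos.mpr hθ), inv_mul_le_iff₀ hθ] at h3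
  have h4 := hz j
  have h5 : f j x = f j z + f j (x - z) := by rw [map_sub]; ring
  rw [h5]
  calc |f j z + f j (x - z)| ≤ |f j z| + |f j (x - z)| := abs_add_le _ _
    _ ≤ β j + θ * β j := by linarith
    _ = _ := by ring

/-- A slightly smaller polytope is inside every convex body close to the polytope. -/
theorem near_mem {P K : Set E} (hP : IsCompact P) (hP0 : P.Nonempty) {ρ θ : ℝ} (hθ : 0 < θ)
    (hθ1 : θ < 1)
    (hball : closedBall (0 : E) ρ ⊆ P) (hK : IsCompact K) (hKc : Convex ℝ K)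
    (h2 : ∀ z ∈ P, ∃ x ∈ K, ‖z - x‖ < θ * ρ) {x : E} (hx : (1 - θ)⁻¹ • x ∈ P) : x ∈ K := by
  by_contra hxK
  obtain ⟨φ, u, hu1, hu2⟩ := geometric_hahn_banach_closed_point hKc hK.isClosed hxK
  obtain ⟨z, hz, hmax⟩ := hP.exists_isMaxOn hP0 φ.continuous.continuousOn
  have h3 : φ x ≤ (1 - θ) * φ z := by
    have := hmax hx
    simp only [Set.mem_ofPred_eq] at this
    rw [map_smul, smul_eq_mul, inv_mul_le_iff₀ (by linarith)] at this
    exact this
  obtain ⟨z', hz', hzz⟩ := h2 z hz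
  have h4 : φ (θ⁻¹ • (z - z')) ≤ φ z := by
    apply hmax
    apply hball
    rw [mem_closedBall_zero_iff, norm_smul, Real.norm_eq_abs, abs_of_pos (inv_pos.mpr hθ)]
    rw [inv_mul_le_iff₀ hθ]
    exact hzz.le
  rw [map_smul, smul_eq_mul, inv_mul_le_iff₀ hθ, map_sub] at h4
  have h5 := hu1 z' hz'
  nlinarith

/-- A frontier point of a convex body close to the polytope almost lies on a facet. -/
theorem near_frontier {N : ℕ} (f : Fin N → E →ₗ[ℝ] ℝ) (β : Fin N → ℝ) {ρ θ : ℝ} (hθ : 0 < θ)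
    (hθ1 : θ < 1) (hPc : IsCompact (poly f β)) (hP0 : (poly f β).Nonempty)
    (hball : closedBall (0 : E) ρ ⊆ poly f β) {K : Set E} (hK : IsCompact K) (hKc : Convex ℝ K)
    (h2 : ∀ z ∈ poly f β, ∃ x ∈ K, ‖z - x‖ < θ * ρ) {x : E} (hx : x ∈ frontier K) :
    ∃ j, (1 - θ) * β j ≤ |f j x| := by
  by_contra hcon
  push Not at hcon
  have hopen : IsOpen {y : E | ∀ j, |f j y| < (1 - θ) * β j} := by
    have : {y : E | ∀ j, |f j y| < (1 - θ) * β j} = ⋂ j, {y | |f j y| < (1 - θ) * β j} := by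
      ext y; simp
    rw [this]
    exact isOpen_iInter_of_finite fun j =>
      isOpen_lt ((f j).continuous_of_finiteDimensional.abs) continuous_const
  have hsub : {y : E | ∀ j, |f j y| < (1 - θ) * β j} ⊆ K := by
    intro y hy
    refine near_mem hPc hP0 hθ hθ1 hball hK hKc h2 ?_
    intro j
    have h3 : 0 < 1 - θ := by linarith
    rw [map_smul, smul_eq_mul, abs_mul, abs_of_pos (inv_pos.mpr h3), inv_mul_le_iff₀ h3]
    exact (hy j).le
  have hint : x ∈ interior K := mem_interior.mpr ⟨_, hsub, hopen, hcon⟩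
  exact hx.2 hint

end Pool.Agent.TH895.Typ
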